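import Pool.Agent.helper37.NA.Spec

/-!
# Row NXU of project NA (MP_baa4d7_al): existence of the block of `L ⊓ nz E`
-/

set_option autoImplicit false

namespace Pool.Agent.NAB

open Pool.Agent.helper58.DC Pool.Agent.DI Pool.Agent.GR Pool.Agent.OB Pool.Agent.DR Pool.Agent.FI Pool.Agent.FI3 Pool.Agent.FI4 Pool.Agent.FI4I Pool.Agent.LE Pool.Agent.L5

theorem NXU_cjS {G : Type} [Group G] {E : Subgroup G} {h : G} (hh : h ∈ nz E) : cjS h E = E := by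
  ext x
  rw [mem_cjS]
  have h1 := Subgroup.mem_normalizer_iff.1 ((nz E).inv_mem hh) x
  rw [inv_inv] at h1
  exact h1.symm

theorem NXU (hNEG : NEG_stmt) (hNEC : NEC_stmt) (hNUD : NUD_stmt) (hNUH : NUH_stmt)
    (hNUG : NUG_stmt) (hDGL : DGL_stmt) (hEXB : EXB_stmt) (hTRN : Pool.Agent.FI.TRN_stmt) :
    NXU_stmt := by
  intro p e m M hS hme G _ _ L ψ hψ z x U
  obtain ⟨-, D, y, hD, hzD, hcen, hcard⟩ := hNUD p e m M hS G L ψ hψ z x U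
  have hp : p.Prime := hS.1
  obtain ⟨-, -, hED, hcz⟩ := hNEC p e m hp hme G D hD.pg hcard z hzD hcen U.od
  obtain ⟨hg1, -, -, -, ⟨hg5, hg6⟩, -, -⟩ := hNEG p e hp G z
  have hDL : D ≤ L := hD.le.trans inf_le_left
  have hDn : D ≤ nz (Eg p e z) := by
    intro d hd
    refine hg6 (hg5 ?_)
    rw [Subgroup.mem_centralizer_iff]
    intro w hw
    rw [Set.mem_singleton_iff] at hw
    rw [hw]
    exact hcen d hd
  have hDH : D ≤ L ⊓ nz (Eg p e z) := le_inf hDL hDn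
  have heq : (L ⊓ nz (Eg p e z)) ⊓ cz D = L ⊓ cz D := by
    apply le_antisymm
    · exact inf_le_inf_right _ inf_le_left
    · exact le_inf (le_inf inf_le_left (inf_le_right.trans hcz)) inf_le_right
  obtain ⟨θ, hθ, hθψ⟩ := hDGL p M hS G L ψ hψ D y hD
  have hθ' : θ ∈ IrrOn ((L ⊓ nz (Eg p e z)) ⊓ cz D) := by rw [heq]; exact hθ
  obtain ⟨η, hη, hθη⟩ := hEXB p M hS G (L ⊓ nz (Eg p e z)) D hD.pg hDH θ hθ'
  have h0θ : ∀ x, x ∉ L ⊓ nz (Eg p e z) → θ x = 0 :=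
    fun x hx => IrrOn_zero hθ' (fun h => hx h.1)
  have h0η : ∀ x, x ∉ L ⊓ nz (Eg p e z) → η x = 0 := fun x hx => IrrOn_zero hη hx
  obtain ⟨-, hT⟩ := hTRN G M (L ⊓ nz (Eg p e z)) L inf_le_left θ η ψ h0θ h0η hθη
  have hηψ : SB M L η ψ := hT.2 hθψ
  obtain ⟨l, hl, hU⟩ := hNUH p e m M hS G L (L ⊓ nz (Eg p e z)) inf_le_left η hη ψ z x hηψ U
  obtain ⟨h, hh, hE⟩ := hNUG p e m M hS hme G (L ⊓ nz (Eg p e z)) D hD.pg hDH η hη θ hθ' hθη z hzD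
    U.od _ _ hU
  refine ⟨η, hη, hηψ, _, _, hU, ?_⟩
  rw [hE]
  exact NXU_cjS hh.2

end Pool.Agent.NAB
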